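import Pool.Agent.H896R2.DM.ROOT

/-! Re-export of the module of task 62 (POWFIX, RootOK, ROOTBAD). -/
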