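import Pool.Agent.H852R2.DM.Defs
import Pool.Agent.H852R2.DM.S.NEARIND
import Pool.Agent.H852R2.DM.S.LCSUM
import Pool.Agent.H896R2.DM.ROOT

/-! Task SAMPLE: one of the `X Y^i` has a suitable power. -/

namespace DM852
open RC14 RC852 Finset Filter Equiv

namespace SAMPLE

open Classical in
/-- Chebyshev's inequality for nearly independent events -/
theorem cheb {Ω : Type*} [Fintype Ω] (I : ℕ) (E : ℕ → Ω → Prop) (p e A : ℝ)
    (he : 0 ≤ e) (hA : 0 ≤ A) (hp : 0 ≤ p) (hcard : (Fintype.card Ω : ℝ) = A)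
    (h1 : ∀ i < I, (#{ω | E i ω} : ℝ) = p * A)
    (h2 : ∀ i < I, ∀ j < I, i ≠ j → (#{ω | E i ω ∧ E j ω} : ℝ) ≤ (p ^ 2 + e) * A) :
    (#{ω | ∀ i < I, ¬ E i ω} : ℝ) * (I * p) ^ 2 ≤ (I * p + I ^ 2 * e) * A := by
  set ind : ℕ → Ω → ℝ := fun i ω => if E i ω then 1 else 0 with hind
  set N : Ω → ℝ := fun ω => ∑ i ∈ range I, ind i ω with hN
  have e1 : ∑ ω, N ω = I * (p * A) := by
    rw [hN, sum_comm]
    rw [sum_congr rfl (g := fun _ => p * A)]
    · rw [sum_const, card_range, nsmul_eq_mul]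
    · intro i hi
      rw [← h1 i (mem_range.1 hi), natCast_card_filter]
  have e2 : ∑ ω, N ω ^ 2 ≤ I * (p * A) + I ^ 2 * ((p ^ 2 + e) * A) := by
    have e3 : ∑ ω, N ω ^ 2 = ∑ i ∈ range I, ∑ j ∈ range I, ∑ ω, ind i ω * ind j ω := by
      have : ∀ ω, N ω ^ 2 = ∑ i ∈ range I, ∑ j ∈ range I, ind i ω * ind j ω := by
        intro ω
        rw [sq, hN, sum_mul_sum]
      rw [sum_congr rfl fun ω _ => this ω, sum_comm]
      refine sum_congr rfl fun i _ => ?_
      rw [sum_comm]
    have e4 : ∀ i ∈ range I, ∀ j ∈ range I, ∑ ω, ind i ω * ind j ω ≤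
        (if i = j then p * A else 0) + (p ^ 2 + e) * A := by
      intro i hi j hj
      have h5 : (0 : ℝ) ≤ (p ^ 2 + e) * A := by positivity
      by_cases hij : i = j
      · subst hij
        rw [if_pos rfl]
        have : ∑ ω, ind i ω * ind i ω = p * A := by
          rw [← h1 i (mem_range.1 hi), natCast_card_filter]
          refine sum_congr rfl fun ω _ => ?_
          rw [hind]
          by_cases h : E i ω <;> simp [h]
        linarith
      · rw [if_neg hij, zero_add]
        refine le_trans (le_of_eq ?_) (h2 i (mem_range.1 hi) j (mem_range.1 hj) hij)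
        rw [natCast_card_filter]
        refine sum_congr rfl fun ω _ => ?_
        rw [hind]
        by_cases h : E i ω <;> by_cases h' : E j ω <;> simp [h, h']
    rw [e3]
    refine (sum_le_sum fun i hi => sum_le_sum fun j hj => e4 i hi j hj).trans ?_
    have e5 : ∀ i ∈ range I, ∑ j ∈ range I, ((if i = j then p * A else 0) + (p ^ 2 + e) * A) =
        p * A + I * ((p ^ 2 + e) * A) := by
      intro i hi
      rw [sum_add_distrib, sum_ite_eq, if_pos hi, sum_const, card_range, nsmul_eq_mul]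
    rw [sum_congr rfl e5, sum_const, card_range, nsmul_eq_mul]
    nlinarith
  have e6 : (#{ω | ∀ i < I, ¬ E i ω} : ℝ) * (I * p) ^ 2 ≤ ∑ ω, (N ω - I * p) ^ 2 := by
    rw [natCast_card_filter, sum_mul]
    refine sum_le_sum fun ω _ => ?_
    by_cases h : ∀ i < I, ¬ E i ω
    · rw [if_pos h, one_mul]
      have : N ω = 0 := by
        rw [hN]
        refine sum_eq_zero fun i hi => ?_
        rw [hind]
        simp [h i (mem_range.1 hi)]
      rw [this]
      nlinarith
    · rw [if_neg h, zero_mul]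
      positivity
  have e7 : ∑ ω, (N ω - I * p) ^ 2 = ∑ ω, N ω ^ 2 - 2 * (I * p) * ∑ ω, N ω + (I * p) ^ 2 * A := by
    have : ∀ ω, (N ω - I * p) ^ 2 = N ω ^ 2 - 2 * (I * p) * N ω + (I * p) ^ 2 := by
      intro ω; ring
    rw [sum_congr rfl fun ω _ => this ω, sum_add_distrib, sum_sub_distrib, ← mul_sum, sum_const,
      card_univ, nsmul_eq_mul, hcard]
    ring
  refine e6.trans ?_
  rw [e7, e1]
  nlinarith

theorem card_shift {n : ℕ} (P : Perm (Fin n) → Prop) [DecidablePred P] (y : Alt n) (i : ℕ) :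
    #{x : Alt n | P ((x : Perm (Fin n)) * (y : Perm (Fin n)) ^ i)} =
      #{x : Alt n | P (x : Perm (Fin n))} := by
  refine card_bij' (fun x _ => x * y ^ i) (fun x _ => x * (y ^ i)⁻¹) ?_ ?_ ?_ ?_
  · intro x hx
    simpa using hx
  · intro x hx
    have hx' := (mem_filter.1 hx).2
    rw [mem_filter]
    refine ⟨mem_univ _, ?_⟩
    have : ((x * (y ^ i)⁻¹ : Alt n) : Perm (Fin n)) * (y : Perm (Fin n)) ^ i = x := by
      push_cast
      group
    rw [this]
    exact hx'
  · intro x _; simp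
  · intro x _; simp

theorem natCard {Ω : Type*} [Fintype Ω] (P : Ω → Prop) [DecidablePred P] :
    (Nat.card {ω // P ω} : ℝ) = (#{ω | P ω} : ℝ) := by
  rw [Nat.card_eq_fintype_card, Fintype.card_subtype]

end SAMPLE

open SAMPLE

open Classical in
/-- for random `X`, `Y` one of the `X Y^i`, `i < I`, is as required, with probability `≥ 1 - ε` -/
theorem SAMPLE (a : ℝ) (ha : 0 < a) (ha1 : a ≤ 1 / 4) (ε : ℝ) (hε : 0 < ε) : ∃ I : ℕ,
    ∀ᶠ n : ℕ in atTop,
      (Nat.card {p : Alt n × Alt n // ¬ ∃ i < I,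
          RootOK a ((p.1 : Perm (Fin n)) * (p.2 : Perm (Fin n)) ^ i)} : ℝ) ≤
        ε * (Fintype.card (Alt n) : ℝ) ^ 2 := by
  obtain ⟨I, hI⟩ := exists_nat_ge (12 / (ε * a) + 1)
  have hεa : 0 < ε * a := by positivity
  have hIpos : (0 : ℝ) < I := by
    have : 0 ≤ 12 / (ε * a) := by positivity
    linarith
  obtain ⟨η, hη, hNI⟩ := NEARIND a ha ha1 (ε * a ^ 2 / 36) (by positivity)
  obtain ⟨C, hC, hRB⟩ := ROOTBAD a ha ha1
  refine ⟨I, ?_⟩
  have hPF : ∀ᶠ n : ℕ in atTop, ∀ d ∈ Finset.Ico 1 I,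
      (Nat.card {y : Alt n // η * n < nfix ((y : Perm (Fin n)) ^ d)} : ℝ) ≤
      2 * d / (η * n) * Fintype.card (Alt n) := by
    rw [Filter.eventually_all_finset]
    intro d hd
    exact POWFIX d (mem_Ico.1 hd).1 η hη
  have hlim1 : ∀ᶠ n : ℕ in atTop, (I : ℝ) * (2 * I / (η * n)) ≤ ε / 4 := by
    have h1 : Tendsto (fun n : ℕ => (I : ℝ) * (2 * I / (η * n))) atTop (nhds 0) := by
      have h2 : Tendsto (fun n : ℕ => (n : ℝ)⁻¹) atTop (nhds 0) :=
        tendsto_inv_atTop_zero.comp tendsto_natCast_atTop_atTop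
      have h3 := h2.const_mul ((I : ℝ) * (2 * I / η))
      rw [mul_zero] at h3
      refine h3.congr fun n => ?_
      rw [mul_assoc]
      congr 1
      rw [← div_div, div_eq_mul_inv (2 * (I : ℝ) / η)]
    exact h1.eventually (ge_mem_nhds (by positivity))
  have hlim2 : ∀ᶠ n : ℕ in atTop, (I : ℝ) * (C / Real.sqrt n) ≤ ε / 4 := by
    have h1 : Tendsto (fun n : ℕ => (I : ℝ) * (C / Real.sqrt n)) atTop (nhds 0) := by
      have h2 : Tendsto (fun n : ℕ => (Real.sqrt n)⁻¹) atTop (nhds 0) :=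
        tendsto_inv_atTop_zero.comp (Real.tendsto_sqrt_atTop.comp tendsto_natCast_atTop_atTop)
      have h3 := h2.const_mul ((I : ℝ) * C)
      rw [mul_zero] at h3
      refine h3.congr fun n => ?_
      rw [mul_assoc, div_eq_mul_inv]
    exact h1.eventually (ge_mem_nhds (by positivity))
  filter_upwards [hNI, hRB, hPF, hlim1, hlim2, LCPROB a ha ha1, PWLOW a ha ha1,
    eventually_ge_atTop 1] with n h1 h2 h3 h4 h5 h6 h7 hn
  set A : ℝ := (Fintype.card (Alt n) : ℝ) with hA
  have hA0 : 0 ≤ A := Nat.cast_nonneg _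
  set pw := pW a n with hpw
  have hpw0 : 0 < pw := lt_of_lt_of_le (by positivity) h7.1
  -- bad `Y`
  obtain ⟨BP, hBP⟩ : ∃ P : Alt n → Prop, ∀ y, P y ↔
    ∃ d ∈ Finset.Ico 1 I, η * n < nfix ((y : Perm (Fin n)) ^ d) := ⟨_, fun _ => Iff.rfl⟩
  set BY : Finset (Alt n) := univ.filter BP with hBY
  have hBYc : (BY.card : ℝ) ≤ ε / 4 * A := by
    have hsub : BY ⊆ (Finset.Ico 1 I).biUnion (fun d => univ.filter (fun y : Alt n =>
        η * n < nfix ((y : Perm (Fin n)) ^ d))) := by
      intro y hy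
      obtain ⟨d, hd, hy'⟩ := (hBP y).1 (mem_filter.1 hy).2
      rw [mem_biUnion]
      exact ⟨d, hd, mem_filter.2 ⟨mem_univ _, hy'⟩⟩
    have hc1 : (BY.card : ℝ) ≤ ∑ d ∈ Finset.Ico 1 I, ((univ.filter (fun y : Alt n =>
        η * n < nfix ((y : Perm (Fin n)) ^ d))).card : ℝ) := by
      exact_mod_cast (card_le_card hsub).trans card_biUnion_le
    have hc2 : ∀ d ∈ Finset.Ico 1 I, ((univ.filter (fun y : Alt n =>
        η * n < nfix ((y : Perm (Fin n)) ^ d))).card : ℝ) ≤ (2 * I / (η * n)) * A := by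
      intro d hd
      have := h3 d hd
      rw [natCard] at this
      refine this.trans ?_
      have hdI : (d : ℝ) ≤ I := by exact_mod_cast (mem_Ico.1 hd).2.le
      have hnpos : (0 : ℝ) < n := by exact_mod_cast hn
      gcongr
    refine hc1.trans ((sum_le_sum hc2).trans ?_)
    rw [sum_const, Nat.card_Ico, nsmul_eq_mul]
    have hI1 : ((I - 1 : ℕ) : ℝ) ≤ I := by exact_mod_cast Nat.sub_le _ _
    have hnpos : (0 : ℝ) < n := by exact_mod_cast hn
    calc ((I - 1 : ℕ) : ℝ) * (2 * I / (η * n) * A) ≤ I * (2 * I / (η * n) * A) := by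
          gcongr
      _ = (I * (2 * I / (η * n))) * A := by ring
      _ ≤ ε / 4 * A := mul_le_mul_of_nonneg_right h4 hA0
  -- for good `Y`
  have hgood : ∀ y : Alt n, y ∉ BY →
      (#{x : Alt n | ∀ i < I, ¬ LC a ((x : Perm (Fin n)) * (y : Perm (Fin n)) ^ i)} : ℝ) ≤
        ε / 2 * A := by
    intro y hy
    have hy' : ∀ d ∈ Finset.Ico 1 I, (nfix ((y : Perm (Fin n)) ^ d) : ℝ) ≤ η * n := by
      intro d hd
      by_contra hcon
      apply hy
      rw [hBY, mem_filter]
      exact ⟨mem_univ _, (hBP y).2 ⟨d, hd, not_le.1 hcon⟩⟩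
    have hcheb := cheb I (fun i (x : Alt n) => LC a ((x : Perm (Fin n)) * (y : Perm (Fin n)) ^ i))
      pw (ε * a ^ 2 / 36) A (by positivity) hA0 hpw0.le rfl
      (by
        intro i _
        rw [card_shift (LC a) y i, ← natCard]
        exact h6)
      (by
        have key : ∀ i < I, ∀ j < I, i < j → (#{x : Alt n | LC a ((x : Perm (Fin n)) *
            (y : Perm (Fin n)) ^ i) ∧ LC a ((x : Perm (Fin n)) * (y : Perm (Fin n)) ^ j)} : ℝ) ≤
            (pw ^ 2 + ε * a ^ 2 / 36) * A := by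
          intro i hi j hj hij
          have hfix := hy' (j - i) (by rw [mem_Ico]; omega)
          have h8 := h1 ((y : Perm (Fin n)) ^ (j - i)) hfix
          rw [natCard] at h8
          refine le_trans (le_of_eq ?_) h8
          have h9 := card_shift (fun π : Perm (Fin n) => LC a π ∧
            LC a (π * (y : Perm (Fin n)) ^ (j - i))) y i
          rw [← h9]
          have h10 : ∀ x : Alt n, (x : Perm (Fin n)) * (y : Perm (Fin n)) ^ i *
              (y : Perm (Fin n)) ^ (j - i) = (x : Perm (Fin n)) * (y : Perm (Fin n)) ^ j := by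
            intro x
            rw [mul_assoc, ← pow_add, Nat.add_sub_cancel' hij.le]
          simp only [h10]
        intro i hi j hj hij
        rcases lt_or_gt_of_ne hij with h | h
        · exact key i hi j hj h
        · have := key j hj i hi h
          simp only [and_comm] at this ⊢
          exact this)
    -- conclusion
    have hIpw : 0 < (I : ℝ) * pw := by positivity
    have hfin : (#{x : Alt n | ∀ i < I, ¬ LC a ((x : Perm (Fin n)) *
        (y : Perm (Fin n)) ^ i)} : ℝ) ≤ ((I * pw + I ^ 2 * (ε * a ^ 2 / 36)) * A) / (I * pw) ^ 2 := by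
      rw [le_div_iff₀ (by positivity)]
      exact hcheb
    refine hfin.trans ?_
    rw [div_le_iff₀ (by positivity)]
    have h11 : 12 ≤ I * (ε * a) := by
      have : 12 / (ε * a) ≤ I := by linarith
      rwa [div_le_iff₀ hεa] at this
    have h12 : (I : ℝ) * pw ≤ ε / 4 * (I * pw) ^ 2 := by
      have h13 : 1 ≤ ε / 4 * (I * pw) := by
        have : ε / 4 * (I * (a / 3)) ≤ ε / 4 * (I * pw) := by
          gcongr
          exact h7.1
        nlinarith
      nlinarith
    have h14 : (I : ℝ) ^ 2 * (ε * a ^ 2 / 36) ≤ ε / 4 * (I * pw) ^ 2 := by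
      have h15 : (a / 3) ^ 2 ≤ pw ^ 2 := pow_le_pow_left₀ (by positivity) h7.1 2
      have h16 : (I : ℝ) ^ 2 * (ε * a ^ 2 / 36) = ε / 4 * (I ^ 2 * (a / 3) ^ 2) := by ring
      rw [h16, mul_pow]
      gcongr
    calc (I * pw + I ^ 2 * (ε * a ^ 2 / 36)) * A
        ≤ (ε / 4 * (I * pw) ^ 2 + ε / 4 * (I * pw) ^ 2) * A :=
          mul_le_mul_of_nonneg_right (add_le_add h12 h14) hA0
      _ = ε / 2 * A * (I * pw) ^ 2 := by ring
  -- the union
  rw [natCard]
  have hsub : (univ.filter (fun p : Alt n × Alt n => ¬ ∃ i < I,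
      RootOK a ((p.1 : Perm (Fin n)) * (p.2 : Perm (Fin n)) ^ i))) ⊆
      (univ ×ˢ BY) ∪ ((univ.filter (fun p : Alt n × Alt n => p.2 ∉ BY ∧
        ∀ i < I, ¬ LC a ((p.1 : Perm (Fin n)) * (p.2 : Perm (Fin n)) ^ i))) ∪
      ((range I).biUnion (fun i => univ.filter (fun p : Alt n × Alt n =>
        LC a ((p.1 : Perm (Fin n)) * (p.2 : Perm (Fin n)) ^ i) ∧
        ¬ RootOK a ((p.1 : Perm (Fin n)) * (p.2 : Perm (Fin n)) ^ i))))) := by
    intro p hp
    have hp' := (mem_filter.1 hp).2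
    push Not at hp'
    rw [mem_union, mem_union]
    by_cases hpB : p.2 ∈ BY
    · left
      exact mem_product.2 ⟨mem_univ _, hpB⟩
    · right
      by_cases hLC : ∀ i < I, ¬ LC a ((p.1 : Perm (Fin n)) * (p.2 : Perm (Fin n)) ^ i)
      · left
        exact mem_filter.2 ⟨mem_univ _, hpB, hLC⟩
      · right
        push Not at hLC
        obtain ⟨i, hi, hLi⟩ := hLC
        rw [mem_biUnion]
        exact ⟨i, mem_range.2 hi, mem_filter.2 ⟨mem_univ _, hLi, hp' i hi⟩⟩
  have hc0 : ((univ.filter (fun p : Alt n × Alt n => ¬ ∃ i < I,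
      RootOK a ((p.1 : Perm (Fin n)) * (p.2 : Perm (Fin n)) ^ i))).card : ℝ) ≤
      ((univ ×ˢ BY : Finset (Alt n × Alt n)).card : ℝ) +
      (((univ.filter (fun p : Alt n × Alt n => p.2 ∉ BY ∧
        ∀ i < I, ¬ LC a ((p.1 : Perm (Fin n)) * (p.2 : Perm (Fin n)) ^ i))).card : ℝ) +
      ∑ i ∈ range I, ((univ.filter (fun p : Alt n × Alt n =>
        LC a ((p.1 : Perm (Fin n)) * (p.2 : Perm (Fin n)) ^ i) ∧
        ¬ RootOK a ((p.1 : Perm (Fin n)) * (p.2 : Perm (Fin n)) ^ i))).card : ℝ)) := by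
    have := (card_le_card hsub).trans ((card_union_le _ _).trans
      (Nat.add_le_add_left ((card_union_le _ _).trans (Nat.add_le_add_left card_biUnion_le _)) _))
    exact_mod_cast this
  have hc1 : ((univ ×ˢ BY : Finset (Alt n × Alt n)).card : ℝ) ≤ ε / 4 * A ^ 2 := by
    rw [card_product, card_univ]
    push_cast
    calc A * (BY.card : ℝ) ≤ A * (ε / 4 * A) := mul_le_mul_of_nonneg_left hBYc hA0
      _ = ε / 4 * A ^ 2 := by ring
  have hc2 : ((univ.filter (fun p : Alt n × Alt n => p.2 ∉ BY ∧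
        ∀ i < I, ¬ LC a ((p.1 : Perm (Fin n)) * (p.2 : Perm (Fin n)) ^ i))).card : ℝ) ≤
      ε / 2 * A ^ 2 := by
    rw [natCast_card_filter, Fintype.sum_prod_type, sum_comm]
    calc ∑ y : Alt n, ∑ x : Alt n, (if y ∉ BY ∧
        ∀ i < I, ¬ LC a ((x : Perm (Fin n)) * (y : Perm (Fin n)) ^ i) then (1 : ℝ) else 0)
        ≤ ∑ y : Alt n, ε / 2 * A := by
          refine sum_le_sum fun y _ => ?_
          by_cases hy : y ∈ BY
          · simp only [hy, not_true_eq_false, false_and, if_false, sum_const_zero]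
            positivity
          · simp only [hy, not_false_eq_true, true_and]
            rw [← natCast_card_filter]
            exact hgood y hy
      _ = ε / 2 * A ^ 2 := by
          rw [sum_const, card_univ, nsmul_eq_mul]
          ring
  have hc3 : ∀ i ∈ range I, ((univ.filter (fun p : Alt n × Alt n =>
        LC a ((p.1 : Perm (Fin n)) * (p.2 : Perm (Fin n)) ^ i) ∧
        ¬ RootOK a ((p.1 : Perm (Fin n)) * (p.2 : Perm (Fin n)) ^ i))).card : ℝ) ≤
      C / Real.sqrt n * A ^ 2 := by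
    intro i _
    rw [natCast_card_filter, Fintype.sum_prod_type, sum_comm]
    calc ∑ y : Alt n, ∑ x : Alt n, (if LC a ((x : Perm (Fin n)) * (y : Perm (Fin n)) ^ i) ∧
        ¬ RootOK a ((x : Perm (Fin n)) * (y : Perm (Fin n)) ^ i) then (1 : ℝ) else 0)
        ≤ ∑ y : Alt n, C / Real.sqrt n * A := by
          refine sum_le_sum fun y _ => ?_
          rw [← natCast_card_filter,
            card_shift (fun u : Perm (Fin n) => LC a u ∧ ¬ RootOK a u) y i, ← natCard]
          exact h2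
      _ = C / Real.sqrt n * A ^ 2 := by
          rw [sum_const, card_univ, nsmul_eq_mul]
          ring
  have hc4 : ∑ i ∈ range I, ((univ.filter (fun p : Alt n × Alt n =>
        LC a ((p.1 : Perm (Fin n)) * (p.2 : Perm (Fin n)) ^ i) ∧
        ¬ RootOK a ((p.1 : Perm (Fin n)) * (p.2 : Perm (Fin n)) ^ i))).card : ℝ) ≤
      ε / 4 * A ^ 2 := by
    refine (sum_le_sum hc3).trans ?_
    rw [sum_const, card_range, nsmul_eq_mul, ← mul_assoc]
    exact mul_le_mul_of_nonneg_right h5 (by positivity)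
  nlinarith

end DM852
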